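import Pool.Agent.Helper28.T3E.StE

/-!
# Project T3E, module IND: induction over the group of the matrices `(a 3b; 3c d)`
-/

set_option autoImplicit false

namespace Pool.Agent.Helper60.T3E

open Pool.Agent.Helper28.T3E

private lemma castP {P : ℤ → ℤ → ℤ → ℤ → Prop} {a b c d a' b' c' d' : ℤ} (h : P a b c d)
    (h1 : a = a') (h2 : b = b') (h3 : c = c') (h4 : d = d') : P a' b' c' d' := by
  subst h1 h2 h3 h4
  exact h

private lemma left_version (P : ℤ → ℤ → ℤ → ℤ → Prop) (h1 : P 1 0 0 1)
    (hc : ∀ a b c d, a * d - 9 * b * c = 1 → P a b c d → P (-a) (-b) (-c) (-d) ∧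
    P (a + 9 * c) (b + d) c d ∧ P (a - 9 * c) (b - d) c d ∧
    P a b (c + a) (d + 9 * b) ∧ P a b (c - a) (d - 9 * b) ∧
    P (-2 * a + 9 * c) (-2 * b + d) (-a + 4 * c) (-9 * b + 4 * d) ∧
    P (4 * a - 9 * c) (4 * b - d) (a - 2 * c) (9 * b - 2 * d) ∧
    P (4 * a + 9 * c) (4 * b + d) (-a - 2 * c) (-9 * b - 2 * d) ∧
    P (-2 * a - 9 * c) (-2 * b - d) (a + 4 * c) (9 * b + 4 * d)) :
    ∀ a b c d, a * d - 9 * b * c = 1 → P a b c d := by
  -- the case `b = 0`
  have h0 : ∀ n : ℕ, ∀ a c d : ℤ, a * d = 1 → c.natAbs ≤ n → P a 0 c d := by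
    intro n
    induction n with
    | zero =>
      intro a c d had hn
      have hc0 : c = 0 := by omega
      subst hc0
      rcases Int.eq_one_or_neg_one_of_mul_eq_one had with h | h
      · subst h
        have hd : d = 1 := by linarith
        subst hd
        exact h1
      · subst h
        have hd : d = -1 := by linarith
        subst hd
        exact castP (hc 1 0 0 1 (by norm_num) h1).1 (by norm_num) (by norm_num) (by norm_num)
          (by norm_num)
    | succ n ih =>
      intro a c d had hn
      by_cases hcn : c.natAbs ≤ n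
      · exact ih a c d had hcn
      have ha : a = 1 ∨ a = -1 := Int.eq_one_or_neg_one_of_mul_eq_one had
      by_cases hs : (c - a).natAbs ≤ n
      · have h := ih a (c - a) d had hs
        exact castP (hc a 0 (c - a) d (by rw [← had]; ring) h).2.2.2.1 rfl rfl (by ring) (by ring)
      · have hs' : (c + a).natAbs ≤ n := by omega
        have h := ih a (c + a) d had hs'
        exact castP (hc a 0 (c + a) d (by rw [← had]; ring) h).2.2.2.2.1 rfl rfl (by ring)
          (by ring)
  -- the general case
  have hm : ∀ n : ℕ, ∀ a b c d : ℤ, a * d - 9 * b * c = 1 → (3 * b).natAbs + d.natAbs ≤ n →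
      P a b c d := by
    intro n
    induction n with
    | zero =>
      intro a b c d hdet hn
      have hb : b = 0 := by omega
      have hd : d = 0 := by omega
      subst hb hd
      norm_num at hdet
    | succ n ih =>
      intro a b c d hdet hn
      by_cases hn' : (3 * b).natAbs + d.natAbs ≤ n
      · exact ih a b c d hdet hn'
      by_cases hb : b = 0
      · subst hb
        exact h0 c.natAbs a c d (by rw [← hdet]; ring) le_rfl
      have hne1 : d ≠ 3 * b := by
        intro h
        have h3 : 3 * (b * (a - 3 * c)) = 1 := by rw [← hdet, h]; ring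
        omega
      have hne2 : d ≠ -(3 * b) := by
        intro h
        have h3 : 3 * (b * (-a - 3 * c)) = 1 := by rw [← hdet, h]; ring
        omega
      have hd0 : d ≠ 0 := by
        intro h
        have h3 : 3 * (-3 * b * c) = 1 := by rw [← hdet, h]; ring
        omega
      -- the eight smaller neighbours
      by_cases hA : (3 * (b - d)).natAbs + d.natAbs ≤ n
      · have h := ih (a - 9 * c) (b - d) c d (by rw [← hdet]; ring) hA
        exact castP (hc _ _ _ _ (by rw [← hdet]; ring) h).2.1 (by ring) (by ring) rfl rfl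
      by_cases hA' : (3 * (b + d)).natAbs + d.natAbs ≤ n
      · have h := ih (a + 9 * c) (b + d) c d (by rw [← hdet]; ring) hA'
        exact castP (hc _ _ _ _ (by rw [← hdet]; ring) h).2.2.1 (by ring) (by ring) rfl rfl
      by_cases hB : (3 * b).natAbs + (d - 9 * b).natAbs ≤ n
      · have h := ih a b (c - a) (d - 9 * b) (by rw [← hdet]; ring) hB
        exact castP (hc _ _ _ _ (by rw [← hdet]; ring) h).2.2.2.1 rfl rfl (by ring) (by ring)
      by_cases hB' : (3 * b).natAbs + (d + 9 * b).natAbs ≤ n
      · have h := ih a b (c + a) (d + 9 * b) (by rw [← hdet]; ring) hB'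
        exact castP (hc _ _ _ _ (by rw [← hdet]; ring) h).2.2.2.2.1 rfl rfl (by ring) (by ring)
      by_cases hC : (3 * (-2 * b + d)).natAbs + (-9 * b + 4 * d).natAbs ≤ n
      · have h := ih (-2 * a + 9 * c) (-2 * b + d) (-a + 4 * c) (-9 * b + 4 * d)
          (by rw [← hdet]; ring) hC
        exact castP (hc _ _ _ _ (by rw [← hdet]; ring) h).2.2.2.2.2.2.1 (by ring) (by ring)
          (by ring) (by ring)
      by_cases hC' : (3 * (4 * b - d)).natAbs + (9 * b - 2 * d).natAbs ≤ n
      · have h := ih (4 * a - 9 * c) (4 * b - d) (a - 2 * c) (9 * b - 2 * d)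
          (by rw [← hdet]; ring) hC'
        exact castP (hc _ _ _ _ (by rw [← hdet]; ring) h).2.2.2.2.2.1 (by ring) (by ring)
          (by ring) (by ring)
      by_cases hD : (3 * (4 * b + d)).natAbs + (-9 * b - 2 * d).natAbs ≤ n
      · have h := ih (4 * a + 9 * c) (4 * b + d) (-a - 2 * c) (-9 * b - 2 * d)
          (by rw [← hdet]; ring) hD
        exact castP (hc _ _ _ _ (by rw [← hdet]; ring) h).2.2.2.2.2.2.2.2 (by ring) (by ring)
          (by ring) (by ring)
      by_cases hD' : (3 * (-2 * b - d)).natAbs + (9 * b + 4 * d).natAbs ≤ n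
      · have h := ih (-2 * a - 9 * c) (-2 * b - d) (a + 4 * c) (9 * b + 4 * d)
          (by rw [← hdet]; ring) hD'
        exact castP (hc _ _ _ _ (by rw [← hdet]; ring) h).2.2.2.2.2.2.2.1 (by ring) (by ring)
          (by ring) (by ring)
      exfalso
      clear ih h0 hc h1 hdet
      omega
  intro a b c d hdet
  exact hm _ a b c d hdet le_rfl

theorem hIND : StIND := by
  intro P h1
  refine ⟨left_version P h1, ?_⟩
  intro hc a b c d hdet
  have key := left_version (fun a b c d => P d (-b) (-c) a) (by simpa using h1) (by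
    intro a b c d hdet h
    obtain ⟨g0, g1, g2, g3, g4, g5, g6, g7, g8⟩ := hc d (-b) (-c) a (by rw [← hdet]; ring) h
    exact ⟨g0, castP g2 rfl (by ring) rfl (by ring), castP g1 rfl (by ring) rfl (by ring),
      castP g4 (by ring) rfl (by ring) rfl, castP g3 (by ring) rfl (by ring) rfl,
      castP g6 (by ring) (by ring) (by ring) (by ring),
      castP g5 (by ring) (by ring) (by ring) (by ring),
      castP g8 (by ring) (by ring) (by ring) (by ring),
      castP g7 (by ring) (by ring) (by ring) (by ring)⟩)
  exact castP (key d (-b) (-c) a (by rw [← hdet]; ring)) rfl (neg_neg b) (neg_neg c) rfl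

end Pool.Agent.Helper60.T3E
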